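import Pool.Agent.TH54.BU.Main2
import Pool.Agent.TH54.BU.Inf

/-!
# An infinite group in the star class of a word, but not in its sharp class (helper54)

The word is `w = (x₀ x₁ x₀ x₁⁻¹) ^ p` for a large prime `p`. The group is `A / ⟨z ^ p⟩` for a
central extension `A` of the free Burnside group of rank two and exponent `p` by an infinite cyclic
group `⟨z⟩`. There are elements `a` of `A` with `a ^ p` not in `⟨z ^ p⟩`; but for every `x` outside
`⟨z⟩` only finitely many classes of `y` modulo `⟨z⟩` have `(x y x y⁻¹) ^ p` outside `⟨z ^ p⟩`.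
-/

set_option autoImplicit false

namespace Pool.Agent.Results.MP_134aa9_al.StarNotSharp

/-- There are a word `w` in two variables and an infinite group `G` in `V(w^*)` but not in
`V(w^#)`. -/
theorem result :
    ∃ (w : FreeGroup (Fin 2)) (G : Type) (_ : Group G), Infinite G ∧
      (∀ S : Fin 2 → Set G, (∀ i, (S i).Infinite) →
        ∃ s : Fin 2 → G, (∀ i, s i ∈ S i) ∧ FreeGroup.lift s w = 1) ∧
      ¬ (∀ S : Fin 2 → Set G, (∀ i, (S i).Infinite) →
        ∃ s : Fin 2 → G, (∀ i, s i ∈ S i) ∧
          ∀ h : Fin 2 → Subgroup.closure (Set.range s), FreeGroup.lift h w = 1) := by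
  obtain ⟨p1, h1⟩ := Pool.Agent.TH54.BU.burnside
  obtain ⟨p2, h2⟩ := Pool.Agent.TH54.BU.burnside2
  obtain ⟨p, hle, hp⟩ := Nat.exists_infinite_primes (max (max p1 p2) 3)
  have e1 : p1 ≤ p := (le_max_left _ _).trans ((le_max_left _ _).trans hle)
  have e2 : p2 ≤ p := (le_max_right _ _).trans ((le_max_left _ _).trans hle)
  have e3 : 3 ≤ p := (le_max_right _ _).trans hle
  exact Pool.Agent.TH54.BU.app_star_sharp hp e3 (h2 p hp e2) ((h1 p hp e1).infinite hp)

end Pool.Agent.Results.MP_134aa9_al.StarNotSharp
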